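import Pool.Agent.KTB.StmtsKB

set_option autoImplicit false

/-!
Row CLM of squad KTB (MP_b48657_ag): the matching of the smaller situation restricts to a clean
matching of the class of `r`.
-/

namespace Pool.Agent.KTB.H60

open Pool.Agent.KTB Finset
open scoped Classical

theorem card_le_of_rel {α β : Type} (s : Finset α) (u : Finset β) (P : α → β → Prop)
    (h1 : ∀ a ∈ s, ∃ b ∈ u, P a b)
    (h2 : ∀ a ∈ s, ∀ a' ∈ s, ∀ b ∈ u, P a b → P a' b → a = a') : s.card ≤ u.card := by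
  rcases s.eq_empty_or_nonempty with h0 | ⟨a₀, ha₀⟩
  · rw [h0, card_empty]
    exact Nat.zero_le _
  obtain ⟨b₀, -, -⟩ := h1 a₀ ha₀
  haveI : Nonempty β := ⟨b₀⟩
  choose! g hg hP using h1
  refine card_le_card_of_injOn g (fun a ha => hg a ha) ?_
  intro a ha a' ha' h
  have h3 : P a' (g a) := by
    rw [h]
    exact hP a' ha'
  exact h2 a ha a' ha' (g a) (hg a ha) (hP a ha) h3

variable {ι T : Type} [Fintype ι]

theorem R_mono (D : Dat ι T) {A B : Finset ι} (h : A ⊆ B) {ρ : ι → ℚ} (hρ : ρ ∈ D.R A) :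
    ρ ∈ D.R B := ⟨hρ.1, fun a ha => hρ.2 a (fun h' => ha (h h'))⟩

theorem clean_symm (D : Dat ι T) {S : Finset ι} {k : T} {y y' : ι} (h : D.Clean S k y y') :
    D.Clean S k y' y :=
  ⟨h.2.1, h.1, h.2.2.1.symm, h.2.2.2.2.1, h.2.2.2.1, fun b hb h1 h2 => h.2.2.2.2.2 b hb h2 h1⟩

/-- two clean pairs with the same coordinate and the same second element -/
theorem clean_inj (D : Dat ι T) {S : Finset ι} {k : T} {y z y' : ι} (h : D.Clean S k y y')
    (h' : D.Clean S k z y') : y = z := by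
  by_contra hne
  have h1 := h.2.2.2.2.2 z h'.1 (fun h2 => hne h2.symm) h'.2.2.1
  have h2 := h'.2.2.2.1
  omega

theorem clm (hIDN : IdnStmt) (hRAY : RayStmt) : ClmStmt := by
  intro ι T _ D S R X Z K M μ k k' t r hNH hFr hXZ htX hVX hVR' hrR hk' htouch hPM
  obtain ⟨-, hIDN2, -, -, hIDN5⟩ := hIDN ι T D S
  -- facts for R
  obtain ⟨p, f, hRne, hRayR, hLLR⟩ := hNH.vd
  obtain ⟨-, ⟨s, hs1, -, -, hs4⟩, -⟩ := hRAY ι T D S R p f hRayR hRne
  have hRS : R ⊆ S := hRayR.1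
  have hpr : 0 < p r := (hRayR.2.1 r hrR).1
  have hA1 : ∀ b ∈ R, ∃ c : ℚ, ∀ ρ ∈ D.R S, ρ b = c * ρ r := by
    intro b hb
    refine ⟨p b / p r, fun ρ hρ => ?_⟩
    rw [hs1 ρ hρ b hb, hs1 ρ hρ r hrR]
    field_simp
  -- facts for X
  obtain ⟨q, g, hXne, hRayX, hLLX⟩ := hVX
  obtain ⟨-, ⟨w, hw1, -, -, hw4⟩, -⟩ := hRAY ι T D S X q g hRayX hXne
  have hXS : X ⊆ S := hRayX.1
  have hqt : 0 < q t := (hRayX.2.1 t htX).1
  have hB1 : ∀ x ∈ X, ∀ ρ ∈ D.R S, ρ x = q x / q t * ρ t := by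
    intro x hx ρ hρ
    rw [hw1 ρ hρ x hx, hw1 ρ hρ t htX]
    field_simp
  have hB1' : ∀ x ∈ X, 0 < q x / q t := fun x hx => div_pos (hRayX.2.1 x hx).1 hqt
  -- facts for R'
  obtain ⟨p', f', hR'ne, hRayR', -⟩ := hVR'
  obtain ⟨-, ⟨u, hu1, -, ⟨ρ₂, hρ₂, hu3⟩, -⟩, -⟩ := hRAY ι T D (S \ X) (Z \ X ∪ R) p' f' hRayR' hR'ne
  have hR'S : Z \ X ∪ R ⊆ S \ X := hRayR'.1
  have hrR' : r ∈ Z \ X ∪ R := mem_union_right _ hrR
  have hrX : r ∉ X := (mem_sdiff.1 (hR'S hrR')).2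
  have hSX : S \ X ⊆ S := sdiff_subset
  have hSR : S \ R ⊆ S := sdiff_subset
  -- independence
  obtain ⟨htS, ρ₁, hρ₁, hρ₁t⟩ := mem_filter.1 hFr.tN
  have hρ₁r : ρ₁ r = 0 := hρ₁.2 r (fun h => (mem_sdiff.1 h).2 hrR)
  have hρ₁S : ρ₁ ∈ D.R S := R_mono D hSR hρ₁
  have hρ₂S : ρ₂ ∈ D.R S := R_mono D hSX hρ₂
  have hρ₂t : ρ₂ t = 0 := hρ₂.2 t (fun h => (mem_sdiff.1 h).2 htX)
  have hρ₂r : ρ₂ r ≠ 0 := by
    rw [hu1 ρ₂ hρ₂ r hrR']
    exact mul_ne_zero (hRayR'.2.1 r hrR').1.ne' hu3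
  have hind : ∀ α β : ℚ, (∀ ρ ∈ D.R S, α * ρ r + β * ρ t = 0) → α = 0 ∧ β = 0 := by
    intro α β h
    have h1 := h ρ₁ hρ₁S
    have h2 := h ρ₂ hρ₂S
    rw [hρ₁r, mul_zero, zero_add] at h1
    rw [hρ₂t, mul_zero, add_zero] at h2
    exact ⟨(mul_eq_zero.1 h2).resolve_right hρ₂r, (mul_eq_zero.1 h1).resolve_right hρ₁t⟩
  -- the computation
  have hcomp : ∀ (i : T) (z z' : ι) (α γ : ℚ), D.Clean (S \ X) i z z' →
      (∀ ρ ∈ D.R S, ρ z = α * ρ r + γ * ρ t) →
      ∃ δ : ℚ, 0 ≤ δ ∧ (∀ ρ ∈ D.R S, ρ z' = -(α * ρ r) - (γ + δ) * ρ t) ∧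
        (δ = 0 → D.Clean S i z z') := by
    intro i z z' α γ hcl hz
    refine ⟨∑ x ∈ X, (D.x i x : ℚ) * (q x / q t), ?_, ?_, ?_⟩
    · exact sum_nonneg (fun x hx => mul_nonneg (Nat.cast_nonneg _) (hB1' x hx).le)
    · intro ρ hρ
      have h1 := hIDN2 ρ hρ i
      rw [← sum_sdiff hXS] at h1
      have h2 : ∑ a ∈ S \ X, (D.x i a : ℚ) * ρ a = ρ z + ρ z' := by
        have h3 : ∑ a ∈ ({z, z'} : Finset ι), (D.x i a : ℚ) * ρ a
            = ∑ a ∈ S \ X, (D.x i a : ℚ) * ρ a := by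
          refine sum_subset ?_ ?_
          · intro a ha
            rcases mem_insert.1 ha with h | h
            · rw [h]; exact hcl.1
            · rw [mem_singleton.1 h]; exact hcl.2.1
          · intro a ha hna
            have h4 : D.x i a = 0 := hcl.2.2.2.2.2 a ha
              (fun h => hna (mem_insert.2 (Or.inl h)))
              (fun h => hna (mem_insert_of_mem (mem_singleton.2 h)))
            rw [h4]
            simp
        rw [← h3, sum_pair hcl.2.2.1, hcl.2.2.2.1, hcl.2.2.2.2.1]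
        simp
      have h5 : ∑ x ∈ X, (D.x i x : ℚ) * ρ x
          = (∑ x ∈ X, (D.x i x : ℚ) * (q x / q t)) * ρ t := by
        rw [sum_mul]
        refine sum_congr rfl fun x hx => ?_
        rw [hB1 x hx ρ hρ]
        ring
      rw [h2, h5, hz ρ hρ] at h1
      linarith
    · intro h0
      have h1 := (sum_eq_zero_iff_of_nonneg
        (fun x hx => mul_nonneg (Nat.cast_nonneg _) (hB1' x hx).le)).1 h0
      refine ⟨hSX hcl.1, hSX hcl.2.1, hcl.2.2.1, hcl.2.2.2.1, hcl.2.2.2.2.1, ?_⟩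
      intro b hb hbz hbz'
      by_cases hbX : b ∈ X
      · have h2 := h1 b hbX
        rcases mul_eq_zero.1 h2 with h3 | h3
        · exact_mod_cast h3
        · exact absurd h3 (hB1' b hbX).ne'
      · exact hcl.2.2.2.2.2 b (mem_sdiff.2 ⟨hb, hbX⟩) hbz hbz'
  -- the domain of the matching
  set dom : Finset ι := (D.sg (S \ X) r).erase r with hdom
  have hpart : ∀ z ∈ dom, ∀ i ∈ M, D.x i z ≠ 0 → ∃ z' ∈ dom, D.Clean (S \ X) i z z' := by
    intro z hz i hi hiz
    obtain ⟨a, ha, a', ha', hcl⟩ := hPM.1 i hi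
    have hzS : z ∈ S \ X := (mem_filter.1 (mem_of_mem_erase hz)).1
    by_cases h1 : z = a
    · subst h1
      exact ⟨a', ha', hcl⟩
    · by_cases h2 : z = a'
      · subst h2
        exact ⟨a, ha, clean_symm D hcl⟩
      · exact absurd (hcl.2.2.2.2.2 z hzS h1 h2) hiz
  have hsub : ∀ y ∈ (D.sg S r).erase r, y ∈ dom := by
    intro y hy
    obtain ⟨hyr, hy2⟩ := mem_erase.1 hy
    obtain ⟨hyS, α, hα, hyα⟩ := mem_filter.1 hy2
    have hyX : y ∉ X := by
      intro h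
      have h1 := hind α (-(q y / q t)) (fun ρ hρ => by
        have h2 := hyα ρ hρ
        have h3 := hB1 y h ρ hρ
        linarith)
      exact hα h1.1
    refine mem_erase.2 ⟨hyr, mem_filter.2 ⟨mem_sdiff.2 ⟨hyS, hyX⟩, α, hα, ?_⟩⟩
    intro ρ hρ
    exact hyα ρ (R_mono D hSX hρ)
  -- the key fact
  have hkey : ∀ y ∈ (D.sg S r).erase r, ∀ i ∈ M, D.x i y ≠ 0 →
      ∃ y' ∈ (D.sg S r).erase r, D.Clean S i y y' := by
    intro y hy i hi hiy
    obtain ⟨y', hy', hcl⟩ := hpart y (hsub y hy) i hi hiy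
    obtain ⟨hyr, hy2⟩ := mem_erase.1 hy
    obtain ⟨hyS, α, hα, hyα⟩ := mem_filter.1 hy2
    obtain ⟨δ, hδ0, hδ1, hδ2⟩ := hcomp i y y' α 0 hcl (fun ρ hρ => by
      rw [hyα ρ hρ]
      ring)
    have hy'r : y' ≠ r := (mem_erase.1 hy').1
    rcases eq_or_lt_of_le hδ0 with h0 | hpos
    · have hclS := hδ2 h0.symm
      refine ⟨y', mem_erase.2 ⟨hy'r, mem_filter.2 ⟨hclS.2.1, -α, neg_ne_zero.2 hα, ?_⟩⟩, hclS⟩
      intro ρ hρ
      rw [hδ1 ρ hρ, ← h0]
      ring
    · exfalso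
      set A : Finset ι := (S \ X).filter
        (fun z => ∃ γ : ℚ, 0 < γ ∧ ∀ ρ ∈ D.R S, ρ z = α * ρ r + γ * ρ t) with hA
      set B : Finset ι := (S \ X).filter
        (fun z => ∃ γ : ℚ, 0 < γ ∧ ∀ ρ ∈ D.R S, ρ z = -(α * ρ r) - γ * ρ t) with hB
      have hBA : B.card ≤ A.card := by
        refine card_le_of_rel B A (fun z z' => ∃ j ∈ K, D.Clean (S \ R) j z z') ?_ ?_
        · intro z hz
          obtain ⟨hzS, γ, hγ, hzγ⟩ := mem_filter.1 hz
          obtain ⟨hzS', hzX⟩ := mem_sdiff.1 hzS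
          have hzR : z ∉ R := by
            intro h
            obtain ⟨c, hc⟩ := hA1 z h
            have h1 := hind (c + α) γ (fun ρ hρ => by
              have h2 := hc ρ hρ
              have h3 := hzγ ρ hρ
              linarith)
            exact hγ.ne' h1.2
          have hzSR : z ∈ S \ R := mem_sdiff.2 ⟨hzS', hzR⟩
          have hzt : z ≠ t := fun h => hzX (h ▸ htX)
          have hzsg : z ∈ D.sg (S \ R) t := by
            refine mem_filter.2 ⟨hzSR, -γ, neg_ne_zero.2 hγ.ne', ?_⟩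
            intro ρ hρ
            have h1 := hzγ ρ (R_mono D hSR hρ)
            have h2 : ρ r = 0 := hρ.2 r (fun h => (mem_sdiff.1 h).2 hrR)
            rw [h1, h2]
            ring
          obtain ⟨j, hj, hjz⟩ := hFr.cls z hzsg hzt
          obtain ⟨z', hz'⟩ := hFr.pair j hj z hzSR hjz
          have hjK : j ∈ K := (mem_filter.1 hj).1
          have hjR : ∀ b ∈ R, D.x j b = 0 := by
            intro b hb
            by_contra hne
            have h1 := (htouch j hjK b hb hne).1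
            exact hk' (h1 ▸ hj)
          have hclS : D.Clean S j z z' := by
            refine ⟨hzS', hSR hz'.2.1, hz'.2.2.1, hz'.2.2.2.1, hz'.2.2.2.2.1, ?_⟩
            intro b hb hbz hbz'
            by_cases hbR : b ∈ R
            · exact hjR b hbR
            · exact hz'.2.2.2.2.2 b (mem_sdiff.2 ⟨hb, hbR⟩) hbz hbz'
          have hz'eq : ∀ ρ ∈ D.R S, ρ z' = α * ρ r + γ * ρ t := by
            intro ρ hρ
            have h1 := (hIDN5 j z z' hclS).2 ρ hρ
            have h2 := hzγ ρ hρ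
            linarith
          have hz'X : z' ∉ X := by
            intro h
            have h1 := hind α (γ - q z' / q t) (fun ρ hρ => by
              have h2 := hz'eq ρ hρ
              have h3 := hB1 z' h ρ hρ
              linarith)
            exact hα h1.1
          exact ⟨z', mem_filter.2 ⟨mem_sdiff.2 ⟨hclS.2.1, hz'X⟩, γ, hγ, hz'eq⟩, j, hjK, hz'⟩
        · intro z₁ _ z₂ _ z' hz' ⟨j₁, hj₁, hc₁⟩ ⟨j₂, hj₂, hc₂⟩
          obtain ⟨hzS, γ, hγ, hzγ⟩ := mem_filter.1 hz'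
          have hz'N : z' ∈ D.N (S \ R) := by
            refine mem_filter.2 ⟨hc₁.2.1, ρ₁, hρ₁, ?_⟩
            rw [hzγ ρ₁ hρ₁S, hρ₁r, mul_zero, zero_add]
            exact mul_ne_zero hγ.ne' hρ₁t
          obtain ⟨k₀, hk₀, -, hk₀'⟩ := hNH.ipc.cov z' hz'N
          have h1 : j₁ = k₀ := by
            by_contra hne
            have h2 := hk₀' j₁ hj₁ hne
            have h3 := hc₁.2.2.2.2.1
            omega
          have h2 : j₂ = k₀ := by
            by_contra hne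
            have h2 := hk₀' j₂ hj₂ hne
            have h3 := hc₂.2.2.2.2.1
            omega
          subst h1
          subst h2
          exact clean_inj D hc₁ hc₂
      have hyA : y ∉ A := by
        intro h
        obtain ⟨-, γ, hγ, hzγ⟩ := mem_filter.1 h
        have h1 := hind 0 γ (fun ρ hρ => by
          have h2 := hzγ ρ hρ
          have h3 := hyα ρ hρ
          linarith)
        exact hγ.ne' h1.2
      have hAB : (insert y A).card ≤ B.card := by
        refine card_le_of_rel (insert y A) B (fun z z' => z' ∈ dom ∧ ∃ i ∈ M,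
          D.Clean (S \ X) i z z') ?_ ?_
        · intro z hz
          rcases mem_insert.1 hz with h | h
          · subst h
            refine ⟨y', mem_filter.2 ⟨hcl.2.1, δ, hpos, ?_⟩, hy', i, hi, hcl⟩
            intro ρ hρ
            rw [hδ1 ρ hρ]
            ring
          · obtain ⟨hzS, γ, hγ, hzγ⟩ := mem_filter.1 h
            have hzr : z ≠ r := by
              intro h1
              subst h1
              have h2 := hind (α - 1) γ (fun ρ hρ => by
                have h3 := hzγ ρ hρ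
                linarith)
              exact hγ.ne' h2.2
            have hzdom : z ∈ dom := by
              refine mem_erase.2 ⟨hzr, mem_filter.2 ⟨hzS, α, hα, ?_⟩⟩
              intro ρ hρ
              have h2 : ρ t = 0 := hρ.2 t (fun h => (mem_sdiff.1 h).2 htX)
              rw [hzγ ρ (R_mono D hSX hρ), h2]
              ring
            obtain ⟨j, ⟨hj, hjz⟩, -⟩ := hPM.2 z hzdom
            obtain ⟨z', hz', hclz⟩ := hpart z hzdom j hj hjz
            obtain ⟨δ', hδ0', hδ1', -⟩ := hcomp j z z' α γ hclz hzγ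
            exact ⟨z', mem_filter.2 ⟨hclz.2.1, γ + δ', by linarith, hδ1'⟩, hz', j, hj, hclz⟩
        · intro z₁ _ z₂ _ z' _ ⟨hz'd, j₁, hj₁, hc₁⟩ ⟨_, j₂, hj₂, hc₂⟩
          obtain ⟨j₀, -, huniq⟩ := hPM.2 z' hz'd
          have h1 : j₁ = j₀ := huniq j₁ ⟨hj₁, by rw [hc₁.2.2.2.2.1]; norm_num⟩
          have h2 : j₂ = j₀ := huniq j₂ ⟨hj₂, by rw [hc₂.2.2.2.2.1]; norm_num⟩
          subst h1
          subst h2
          exact clean_inj D hc₁ hc₂
      rw [card_insert_of_notMem hyA] at hAB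
      omega
  refine ⟨M.filter (fun i => ∃ y ∈ (D.sg S r).erase r, D.x i y ≠ 0), ?_, ?_⟩
  · intro i hi
    obtain ⟨hiM, y, hy, hiy⟩ := mem_filter.1 hi
    obtain ⟨y', hy', hcl⟩ := hkey y hy i hiM hiy
    exact ⟨y, hy, y', hy', hcl⟩
  · intro a ha
    obtain ⟨i, ⟨hi, hia⟩, huniq⟩ := hPM.2 a (hsub a ha)
    refine ⟨i, ⟨mem_filter.2 ⟨hi, a, ha, hia⟩, hia⟩, ?_⟩
    intro j hj
    exact huniq j ⟨(mem_filter.1 hj.1).1, hj.2⟩

end Pool.Agent.KTB.H60
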