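import Pool.Agent.KTB.StmtsKD

/-!
# Squad KTB, row IS0 (no block, smallest nullity)
-/

set_option autoImplicit false

namespace Pool.Agent.KTB.H60

open Finset Pool.Agent.KTB
open scoped Classical

theorem sum_one {α : Type} (s : Finset α) (g : α → ℕ) (h : ∑ i ∈ s, g i = 1) :
    ∃ i ∈ s, g i = 1 ∧ ∀ j ∈ s, j ≠ i → g j = 0 := by
  obtain ⟨i, hi, hne⟩ : ∃ i ∈ s, g i ≠ 0 :=
    Finset.exists_ne_zero_of_sum_ne_zero (by rw [h]; exact one_ne_zero)
  have h2 := Finset.add_sum_erase s g hi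
  refine ⟨i, hi, by omega, fun j hj hji => ?_⟩
  have h3 := Finset.single_le_sum (f := g) (fun _ _ => Nat.zero_le _)
    (Finset.mem_erase.2 ⟨hji, hj⟩)
  omega

variable {ι T : Type} [Fintype ι]

/-- the blocks of an exact family of coordinates are disjoint -/
theorem card_EK (D : Dat ι T) (S : Finset ι) (K : Finset T)
    (h : ∀ a ∈ S, ∀ k ∈ K, ∀ j ∈ K, D.x k a ≠ 0 → D.x j a ≠ 0 → j = k) :
    (D.EK S K).card = ∑ k ∈ K, (D.E S k).card := by
  have h1 : D.EK S K = K.biUnion (D.E S) := by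
    ext a
    simp only [Dat.EK, Dat.E, Finset.mem_filter, Finset.mem_biUnion]
    constructor
    · rintro ⟨h2, k, hk, h3⟩
      exact ⟨k, hk, h2, h3⟩
    · rintro ⟨k, hk, h2, h3⟩
      exact ⟨h2, k, hk, h3⟩
  rw [h1, Finset.card_biUnion]
  intro k hk j hj hkj
  show Disjoint (D.E S k) (D.E S j)
  rw [Finset.disjoint_left]
  intro a ha hb
  simp only [Dat.E, Finset.mem_filter] at ha hb
  exact hkj (h a ha.1 k hk j hj ha.2 hb.2).symm

theorem is0 (h1 : IdnStmt) (h2 : RayStmt) (h3 : TrmStmt) (h4 : TwoStmt) : Is0Stmt := by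
  intro ι T _ D S K P Q μ hM hK hnul hPK hB
  have hNS : D.N S ⊆ S := Finset.filter_subset _ _
  -- no valid set
  have hnv : ∀ R, ¬ D.Valid S R := by
    intro R hR
    have hre : D.Reach S (S \ R) := Relation.ReflTransGen.single ⟨R, hR, rfl⟩
    have h5 := hM.2.2 _ hre
    obtain ⟨p, f, hvd⟩ := hR
    obtain ⟨-, -, -, -, h6, -⟩ := h2 ι T D S R p f hvd.2.1 hvd.1
    omega
  obtain ⟨M, hLL, hPM, huniq⟩ := h3 ι T D S hM.1 hnv
  -- all blocks have two elements
  have hexc : D.exc S K = 0 := by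
    have := hK.sum
    omega
  have hcard : ∀ k ∈ K, (D.E S k).card = 2 := by
    intro k hk
    have h5 : ((D.E S k).card - 2) = 0 := by
      have h6 : ∑ k ∈ K, ((D.E S k).card - 2) = 0 := hexc
      exact (Finset.sum_eq_zero_iff.1 h6) k hk
    have h7 := hK.two k hk
    omega
  have hN : ∀ k ∈ K, ∀ a ∈ S, D.x k a ≠ 0 → a ∈ D.N S := by
    intro k hk a ha hx
    by_contra hn
    exact hx (hK.out a ha hn k hk)
  have huK : ∀ a ∈ S, ∀ k ∈ K, ∀ j ∈ K, D.x k a ≠ 0 → D.x j a ≠ 0 → j = k := by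
    intro a ha k hk j hj hxk hxj
    obtain ⟨k₀, hk₀, -, h6⟩ := hK.cov a (hN k hk a ha hxk)
    by_contra hne
    have e1 : k = k₀ := by
      by_contra h; exact hxk (h6 k hk h)
    have e2 : j = k₀ := by
      by_contra h; exact hxj (h6 j hj h)
    exact hne (e2.trans e1.symm)
  have hval : ∀ k ∈ K, ∀ a ∈ S, D.x k a ≠ 0 → D.x k a = 1 := by
    intro k hk a ha hx
    obtain ⟨k₀, hk₀, h5, h6⟩ := hK.cov a (hN k hk a ha hx)
    have e1 : k = k₀ := by
      by_contra h; exact hx (h6 k hk h)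
    rw [e1]; exact h5
  -- clean coordinates from blocks with two elements
  have hclean : ∀ k : T, (D.E S k).card = 2 → (∀ a ∈ S, D.x k a ≠ 0 → a ∈ D.N S) →
      (∀ a ∈ S, D.x k a ≠ 0 → D.x k a = 1) →
      ∃ y ∈ D.N S, ∃ y' ∈ D.N S, D.Clean S k y y' := by
    intro k hc hkN hk1
    obtain ⟨y, y', hne, hE⟩ := Finset.card_eq_two.1 hc
    have hy : y ∈ D.E S k := by rw [hE]; simp
    have hy' : y' ∈ D.E S k := by rw [hE]; simp
    simp only [Dat.E, Finset.mem_filter] at hy hy'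
    refine ⟨y, hkN y hy.1 hy.2, y', hkN y' hy'.1 hy'.2, hy.1, hy'.1, hne, hk1 y hy.1 hy.2,
      hk1 y' hy'.1 hy'.2, ?_⟩
    intro b hb hb1 hb2
    by_contra hx
    have h5 : b ∈ D.E S k := by
      simp only [Dat.E, Finset.mem_filter]
      exact ⟨hb, hx⟩
    rw [hE, Finset.mem_insert, Finset.mem_singleton] at h5
    rcases h5 with h5 | h5
    · exact hb1 h5
    · exact hb2 h5
  have hKM : K = M := by
    refine huniq K ⟨fun k hk => hclean k (hcard k hk) (hN k hk) (hval k hk), ?_⟩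
    intro a ha
    obtain ⟨k₀, hk₀, h5, h6⟩ := hK.cov a ha
    refine ⟨k₀, ⟨hk₀, by rw [h5]; exact one_ne_zero⟩, ?_⟩
    rintro k ⟨hk, hx⟩
    by_contra h
    exact hx (h6 k hk h)
  -- `Q` is disjoint from `K`
  have hQK : ∀ q ∈ Q, q ∉ K := by
    intro q hq hqK
    have h5 : 0 < (D.E S q).card := by rw [hcard q hqK]; norm_num
    obtain ⟨a, ha⟩ := Finset.card_pos.1 h5
    simp only [Dat.E, Finset.mem_filter] at ha
    rcases hB.once a ha.1 with ⟨h6, -⟩ | ⟨-, h6⟩
    · obtain ⟨p, hp, hp1, -⟩ := sum_one P (fun p => D.x p a) h6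
      have h7 : p = q := huK a ha.1 q hqK p (hPK hp) ha.2 (by
        show D.x p a ≠ 0
        rw [show D.x p a = 1 from hp1]; exact one_ne_zero)
      exact Finset.disjoint_left.1 hB.disj hp (h7 ▸ hq)
    · exact ha.2 (h6 q hq)
  -- the elements which meet `Q` are the ones which meet `P`
  have hQP : D.EK S Q = D.EK S P := by
    ext a
    simp only [Dat.EK, Finset.mem_filter]
    refine and_congr_right fun ha => ?_
    rcases hB.once a ha with ⟨h6, h7⟩ | ⟨h6, h7⟩
    · obtain ⟨p, hp, hp1, -⟩ := sum_one P (fun p => D.x p a) h6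
      obtain ⟨q, hq, hq1, -⟩ := sum_one Q (fun p => D.x p a) h7
      exact ⟨fun _ => ⟨p, hp, by rw [show D.x p a = 1 from hp1]; exact one_ne_zero⟩,
        fun _ => ⟨q, hq, by rw [show D.x q a = 1 from hq1]; exact one_ne_zero⟩⟩
    · constructor
      · rintro ⟨q, hq, hx⟩
        exact absurd (h7 q hq) hx
      · rintro ⟨p, hp, hx⟩
        exact absurd (h6 p hp) hx
  have hQN : ∀ q ∈ Q, ∀ a ∈ S, D.x q a ≠ 0 → a ∈ D.N S := by
    intro q hq a ha hx
    have h5 : a ∈ D.EK S Q := by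
      simp only [Dat.EK, Finset.mem_filter]
      exact ⟨ha, q, hq, hx⟩
    rw [hQP] at h5
    simp only [Dat.EK, Finset.mem_filter] at h5
    obtain ⟨-, p, hp, hxp⟩ := h5
    exact hN p (hPK hp) a ha hxp
  have hQ1 : ∀ q ∈ Q, ∀ a ∈ S, D.x q a ≠ 0 → D.x q a = 1 ∧ ∀ j ∈ Q, j ≠ q → D.x j a = 0 := by
    intro q hq a ha hx
    rcases hB.once a ha with ⟨-, h7⟩ | ⟨-, h7⟩
    · obtain ⟨q', hq', hq1, hq2⟩ := sum_one Q (fun p => D.x p a) h7
      have e1 : q = q' := by
        by_contra h; exact hx (hq2 q hq h)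
      subst e1
      exact ⟨hq1, hq2⟩
    · exact absurd (h7 q hq) hx
  have hcP : (D.EK S P).card = 2 * P.card := by
    rw [card_EK D S P fun a ha k hk j hj => huK a ha k (hPK hk) j (hPK hj),
      Finset.sum_congr rfl fun k hk => hcard k (hPK hk), Finset.sum_const, smul_eq_mul, mul_comm]
  have hcQ : (D.EK S Q).card = ∑ q ∈ Q, (D.E S q).card := by
    refine card_EK D S Q fun a ha k hk j hj hxk hxj => ?_
    by_contra h
    exact hxj ((hQ1 k hk a ha hxk).2 j hj h)
  have hge : ∀ q ∈ Q, 2 ≤ (D.E S q).card := by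
    intro q hq
    obtain ⟨l, hl⟩ := hM.1.1
    have h5 := (h1 ι T D S).1 l hl q
    obtain ⟨a, ha, hx⟩ : ∃ a ∈ S, D.x q a ≠ 0 := by
      by_contra hc
      push Not at hc
      rw [Finset.sum_eq_zero fun a ha => by rw [hc a ha]; simp] at h5
      exact zero_ne_one h5
    have h6 := h4 ι T D S q ⟨a, hQN q hq a ha hx, hx⟩
    refine h6.trans (Finset.card_le_card ?_)
    intro y hy
    simp only [Dat.E, Finset.mem_filter] at hy ⊢
    exact ⟨hNS hy.1, hy.2⟩
  have heq : ∀ q ∈ Q, (D.E S q).card = 2 := by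
    intro q hq
    have h5 : ∑ q ∈ Q, (D.E S q).card = ∑ q ∈ Q, 2 := by
      rw [← hcQ, hQP, hcP, Finset.sum_const, smul_eq_mul, hB.card, mul_comm]
    exact ((Finset.sum_eq_sum_iff_of_le hge).1 h5.symm q hq).symm
  have hM' : (K \ P) ∪ Q = M := by
    refine huniq _ ⟨?_, ?_⟩
    · intro k hk
      rcases Finset.mem_union.1 hk with hk | hk
      · have hkK := (Finset.mem_sdiff.1 hk).1
        exact hclean k (hcard k hkK) (hN k hkK) (hval k hkK)
      · exact hclean k (heq k hk) (hQN k hk) fun a ha hx => (hQ1 k hk a ha hx).1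
    · intro a ha
      have haS := hNS ha
      obtain ⟨k₀, hk₀, h5, h6⟩ := hK.cov a ha
      have h5' : D.x k₀ a ≠ 0 := by rw [h5]; exact one_ne_zero
      rcases hB.once a haS with ⟨h7, h8⟩ | ⟨h7, h8⟩
      · obtain ⟨p, hp, hp1, -⟩ := sum_one P (fun p => D.x p a) h7
        obtain ⟨q, hq, hq1, hq2⟩ := sum_one Q (fun p => D.x p a) h8
        have hp1' : D.x p a ≠ 0 := by rw [show D.x p a = 1 from hp1]; exact one_ne_zero
        have hpk : p = k₀ := huK a haS k₀ hk₀ p (hPK hp) h5' hp1'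
        refine ⟨q, ⟨Finset.mem_union_right _ hq, by
          rw [show D.x q a = 1 from hq1]; exact one_ne_zero⟩, ?_⟩
        rintro k ⟨hk, hx⟩
        rcases Finset.mem_union.1 hk with hk | hk
        · obtain ⟨hkK, hkP⟩ := Finset.mem_sdiff.1 hk
          have h9 : k = k₀ := huK a haS k₀ hk₀ k hkK h5' hx
          exact absurd (h9 ▸ hpk ▸ hp) hkP
        · by_contra h
          exact hx (hq2 k hk h)
      · refine ⟨k₀, ⟨Finset.mem_union_left _ (Finset.mem_sdiff.2 ⟨hk₀, fun h => h5' (h7 k₀ h)⟩),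
          h5'⟩, ?_⟩
        rintro k ⟨hk, hx⟩
        rcases Finset.mem_union.1 hk with hk | hk
        · exact huK a haS k₀ hk₀ k (Finset.mem_sdiff.1 hk).1 h5' hx
        · exact absurd (h8 k hk) hx
  have hQe : Q = ∅ := by
    rw [Finset.eq_empty_iff_forall_notMem]
    intro q hq
    refine hQK q hq ?_
    rw [hKM, ← hM']
    exact Finset.mem_union_right _ hq
  have h5 := hB.card
  rw [hQe, Finset.card_empty, Finset.card_eq_zero] at h5
  exact hB.ne.ne_empty h5

end Pool.Agent.KTB.H60
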