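import Pool.Agent.KTB.StmtsKD

/-!
# Squad KTB, row ISO (no block in a cover)
-/

set_option autoImplicit false

namespace Pool.Agent.KTB.H60

open Finset Pool.Agent.KTB
open scoped Classical

theorem iso (h1 : RmvStmt) (h2 : FrcStmt) (h3 : Is0Stmt) (h4 : Is1Stmt) : IsoStmt := by
  intro ι T _ D
  have key : ∀ (n : ℕ) (S : Finset ι) (K P Q : Finset T) (μ : ℕ), D.nul S = n →
      D.Mn S μ → D.IPC S K μ → P ⊆ K → ¬ D.Bk S P Q := by
    intro n
    induction n using Nat.strong_induction_on with
    | _ n ih =>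
      intro S K P Q μ hn hM hK hP hB
      have hle : μ ≤ D.nul S := hM.2.2 S Relation.ReflTransGen.refl
      rcases hle.eq_or_lt with he | hlt
      · exact h3 ι T D S K P Q μ hM hK he.symm hP hB
      · obtain ⟨F, hF3, hFr, hdis⟩ := h2 ι T D S K μ hK hlt
        have hsub : ∀ q ∈ F, P ⊆ D.par S K q.2 := by
          intro q hq
          by_contra hns
          obtain ⟨X, Q₁, hV, hM', hK', hB'⟩ :=
            h4 ι T D S K P Q μ q.1 q.2 hM hK (hFr q hq) hP hB hns
          have hVne : X.Nonempty := by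
            obtain ⟨p, f, hvd⟩ := hV
            exact hvd.1
          obtain ⟨t, ht⟩ := hVne
          obtain ⟨-, -, -, -, hnul, -⟩ := h1 ι T D S X t μ hV ht
          exact ih (D.nul (S \ X)) (by omega) (S \ X) (K \ D.par S K q.2)
            (P \ D.par S K q.2) Q₁ μ rfl hM' hK' (Finset.sdiff_subset_sdiff hP (Subset.refl _)) hB'
        obtain ⟨q, hq, q', hq', hne⟩ := Finset.one_lt_card.1 (show 1 < F.card by omega)
        obtain ⟨p, hp⟩ := hB.ne
        exact Finset.disjoint_left.1 (hdis q hq q' hq' hne) (hsub q hq hp) (hsub q' hq' hp)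
  intro S K P Q μ hM hK hP
  exact key (D.nul S) S K P Q μ rfl hM hK hP

end Pool.Agent.KTB.H60
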